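import Mathlib

set_option autoImplicit false

namespace Pool.Agent.H.MP_2ecbc5_gt

open Set Metric MeasureTheory Filter Topology ENNReal

abbrev E (n : ℕ) : Type := EuclideanSpace ℝ (Fin n)

variable {n : ℕ}

def St (u : E n) (K : Set (E n)) : Set (E n) :=
  setOf (fun y : E n => ∃ x : E n, ∃ t : ℝ, y = x + t • u ∧ inner ℝ x u = 0 ∧
    (∃ s : ℝ, x + s • u ∈ K) ∧
    2 * |t| ≤ (volume (setOf (fun s : ℝ => x + s • u ∈ K))).toReal)

lemma fiber {u : E n} (hu : ‖u‖ = 1) {K : Set (E n)} (hK : IsCompact K) (hc : Convex ℝ K)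
    (x : E n) (h : ∃ s : ℝ, x + s • u ∈ K) :
    ∃ α β : ℝ, α ≤ β ∧ setOf (fun s : ℝ => x + s • u ∈ K) = Icc α β := by
  have hi : Isometry fun s : ℝ => x + s • u := by
    refine Isometry.of_dist_eq fun a b => ?_
    rw [dist_add_left, dist_eq_norm, ← sub_smul, norm_smul, hu, mul_one, Real.dist_eq,
      Real.norm_eq_abs]
  have h1 : IsCompact (setOf (fun s : ℝ => x + s • u ∈ K)) :=
    hi.isClosedEmbedding.isCompact_preimage hK
  have h2 : Convex ℝ (setOf (fun s : ℝ => x + s • u ∈ K)) := by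
    intro a ha b hb p q hp hq hpq
    have := hc ha hb hp hq hpq
    have e : p • (x + a • u) + q • (x + b • u) = x + (p • a + q • b) • u := by
      have : x = (p + q) • x := by rw [hpq, one_smul]
      conv_rhs => rw [this]
      simp only [smul_add, add_smul, smul_smul, smul_eq_mul]; abel
    rw [e] at this
    exact this
  have h3 := eq_Icc_of_connected_compact (h2.isConnected h) h1
  refine ⟨_, _, ?_, h3⟩
  obtain ⟨s, hs⟩ := h
  have : s ∈ setOf (fun s : ℝ => x + s • u ∈ K) := hs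
  rw [h3] at this
  exact this.1.trans this.2

lemma uniq {u : E n} (hu : ‖u‖ = 1) {x x' : E n} {t t' : ℝ} (hx : inner ℝ x u = 0)
    (hx' : inner ℝ x' u = 0) (h : x + t • u = x' + t' • u) : x = x' ∧ t = t' := by
  have h1 := congrArg (fun z => inner ℝ z u) h
  simp only [inner_add_left, inner_smul_left, hx, hx', real_inner_self_eq_norm_sq, hu] at h1
  simp at h1
  subst h1
  exact ⟨add_right_cancel h, rfl⟩

lemma mem_St {u : E n} (hu : ‖u‖ = 1) {K : Set (E n)} (hK : IsCompact K) (hc : Convex ℝ K)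
    (y : E n) : y ∈ St u K ↔ ∃ x : E n, ∃ s t : ℝ, inner ℝ x u = 0 ∧ x + s • u ∈ K ∧
      x + t • u ∈ K ∧ y = x + ((s - t) / 2) • u := by
  constructor
  · rintro ⟨x, t, rfl, hx, h, ht⟩
    obtain ⟨α, β, hab, e⟩ := fiber hu hK hc x h
    rw [e, Real.volume_Icc, ENNReal.toReal_ofReal (by linarith)] at ht
    have := abs_le.1 (show |t| ≤ (β - α) / 2 by linarith)
    refine ⟨x, (α + β) / 2 + t, (α + β) / 2 - t, hx, ?_, ?_, by congr 2; ring⟩
    · have : (α + β) / 2 + t ∈ Icc α β := ⟨by linarith, by linarith⟩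
      rw [← e] at this; exact this
    · have : (α + β) / 2 - t ∈ Icc α β := ⟨by linarith, by linarith⟩
      rw [← e] at this; exact this
  · rintro ⟨x, s, t, hx, hs, ht, rfl⟩
    obtain ⟨α, β, hab, e⟩ := fiber hu hK hc x ⟨s, hs⟩
    refine ⟨x, _, rfl, hx, ⟨s, hs⟩, ?_⟩
    rw [e, Real.volume_Icc, ENNReal.toReal_ofReal (by linarith)]
    have h1 : s ∈ Icc α β := by rw [← e]; exact hs
    have h2 : t ∈ Icc α β := by rw [← e]; exact ht
    have : |(s - t) / 2| ≤ (β - α) / 2 := abs_le.2 ⟨by linarith [h1.1, h2.2], by linarith [h1.2, h2.1]⟩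
    linarith

lemma St_compact {u : E n} (hu : ‖u‖ = 1) {K : Set (E n)} (hK : IsCompact K) (hc : Convex ℝ K) :
    IsCompact (St u K) := by
  have : St u K = (fun p : E n × E n => p.1 - ((inner ℝ p.1 u + inner ℝ p.2 u) / 2 : ℝ) • u) ''
      ((K ×ˢ K) ∩ {p | p.1 - inner ℝ p.1 u • u = p.2 - inner ℝ p.2 u • u}) := by
    ext y
    rw [mem_St hu hK hc]
    constructor
    · rintro ⟨x, s, t, hx, hs, ht, rfl⟩
      refine ⟨(x + s • u, x + t • u), ⟨⟨hs, ht⟩, ?_⟩, ?_⟩
      · simp [inner_add_left, inner_smul_left, hx, hu]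
      · simp only [inner_add_left, inner_smul_left, hx, real_inner_self_eq_norm_sq, hu]
        simp only [conj_trivial, one_pow, mul_one, zero_add]
        rw [add_sub_assoc, ← sub_smul]; congr 2; ring
    · rintro ⟨⟨a, b⟩, ⟨⟨ha, hb⟩, h⟩, rfl⟩
      refine ⟨a - inner ℝ a u • u, inner ℝ a u, inner ℝ b u, ?_, by simpa using ha, ?_, ?_⟩
      · simp [inner_sub_left, inner_smul_left, hu]
      · have h' : a - inner ℝ a u • u = b - inner ℝ b u • u := h
        rw [h']; simpa using hb
      · simp only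
        rw [sub_add, ← sub_smul]; congr 2; ring
  rw [this]
  refine IsCompact.image ((hK.prod hK).inter_right (isClosed_eq (by fun_prop) (by fun_prop))) (by fun_prop)

lemma St_convex {u : E n} (hu : ‖u‖ = 1) {K : Set (E n)} (hK : IsCompact K) (hc : Convex ℝ K) :
    Convex ℝ (St u K) := by
  intro y hy y' hy' p q hp hq hpq
  rw [mem_St hu hK hc] at hy hy' ⊢
  obtain ⟨x, s, t, hx, hs, ht, rfl⟩ := hy
  obtain ⟨x', s', t', hx', hs', ht', rfl⟩ := hy'
  refine ⟨p • x + q • x', p * s + q * s', p * t + q * t', ?_, ?_, ?_, ?_⟩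
  · simp [inner_add_left, inner_smul_left, hx, hx']
  · convert hc hs hs' hp hq hpq using 1
    simp only [smul_add, add_smul, smul_smul]; abel
  · convert hc ht ht' hp hq hpq using 1
    simp only [smul_add, add_smul, smul_smul]; abel
  · have : (p * s + q * s' - (p * t + q * t')) / 2 = p * ((s - t) / 2) + q * ((s' - t') / 2) := by ring
    rw [this]
    simp only [smul_add, add_smul, smul_smul]; abel

lemma py {u x : E n} (hu : ‖u‖ = 1) (hx : inner ℝ x u = 0) (s : ℝ) :
    ‖x + s • u‖ ^ 2 = ‖x‖ ^ 2 + s ^ 2 := by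
  rw [norm_add_sq_real, inner_smul_right, hx, norm_smul, hu]; simp

lemma St_out {u : E n} (hu : ‖u‖ = 1) {K : Set (E n)} (hK : IsCompact K) (hc : Convex ℝ K)
    {R : ℝ} (h : K ⊆ closedBall 0 R) : St u K ⊆ closedBall 0 R := by
  intro y hy
  rw [mem_St hu hK hc] at hy
  obtain ⟨x, s, t, hx, hs, ht, rfl⟩ := hy
  have h1 := mem_closedBall_zero_iff.1 (h hs)
  have h2 := mem_closedBall_zero_iff.1 (h ht)
  have R0 : 0 ≤ R := (norm_nonneg _).trans h1
  rw [mem_closedBall_zero_iff, ← sq_le_sq₀ (norm_nonneg _) R0, py hu hx] at *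
  nlinarith [sq_nonneg (s + t)]

lemma St_in {u : E n} (hu : ‖u‖ = 1) {K : Set (E n)} (hK : IsCompact K) (hc : Convex ℝ K)
    {r : ℝ} {c : E n} (h : closedBall c r ⊆ K) : ∃ c', closedBall c' r ⊆ St u K := by
  refine ⟨c - inner ℝ c u • u, fun z hz => ?_⟩
  rw [mem_St hu hK hc]
  have R0 : 0 ≤ r := dist_nonneg.trans hz
  obtain ⟨v, hv⟩ : ∃ v, v = z - (c - inner ℝ c u • u) := ⟨_, rfl⟩
  have hv1 : ‖v‖ ≤ r := by rw [hv, ← dist_eq_norm]; exact hz
  have hw : inner ℝ (v - inner ℝ v u • u) u = 0 := by simp [inner_sub_left, inner_smul_left, hu]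
  have e1 := py hu hw (inner ℝ v u)
  have e2 := py hu hw (-inner ℝ v u)
  rw [sub_add_cancel] at e1
  refine ⟨c - inner ℝ c u • u + (v - inner ℝ v u • u), inner ℝ c u + inner ℝ v u,
    inner ℝ c u - inner ℝ v u, ?_, h ?_, h ?_, ?_⟩
  · simp [inner_sub_left, inner_add_left, inner_smul_left, hu]
  · rw [mem_closedBall, dist_eq_norm]
    have : c - inner ℝ c u • u + (v - inner ℝ v u • u) + (inner ℝ c u + inner ℝ v u) • u - c = v := by
      rw [add_smul]; abel
    rw [this]; exact hv1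
  · rw [mem_closedBall, dist_eq_norm]
    have : c - inner ℝ c u • u + (v - inner ℝ v u • u) + (inner ℝ c u - inner ℝ v u) • u - c =
        v - inner ℝ v u • u + (-inner ℝ v u) • u := by
      rw [sub_smul, neg_smul]; abel
    rw [this, ← sq_le_sq₀ (norm_nonneg _) R0, e2, neg_sq, ← e1]
    exact pow_le_pow_left₀ (norm_nonneg _) hv1 2
  · have : (inner ℝ c u + inner ℝ v u - (inner ℝ c u - inner ℝ v u)) / 2 = inner ℝ v u := by ring
    rw [this, add_assoc, sub_add_cancel, hv]; abel

noncomputable def T (u : E n) (f : E n → ℝ≥0∞) (x : E n) : ℝ≥0∞ := ∫⁻ t : ℝ, f (x + t • u)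

lemma T_shift (u : E n) (f : E n → ℝ≥0∞) (x : E n) (s : ℝ) : T u f (x + s • u) = T u f x := by
  rw [T, T, ← lintegral_add_left_eq_self (fun t : ℝ => f (x + t • u)) s]
  congr 1; ext t; simp [add_smul, add_assoc]

lemma T_meas (u : E n) {f : E n → ℝ≥0∞} (h : Measurable f) : Measurable (T u f) :=
  Measurable.lintegral_prod_right' (f := fun p : E n × ℝ => f (p.1 + p.2 • u)) (h.comp (by fun_prop))

lemma fub {u : E n} (hu : ‖u‖ = 1) {f : E n → ℝ≥0∞} (h : Measurable f) :
    ∫⁻ x, f x = ∫⁻ x in {x | inner ℝ u x ∈ Ico (0 : ℝ) 1}, T u f x := by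
  have m : MeasurableSet {x : E n | inner ℝ u x ∈ Ico (0 : ℝ) 1} :=
    measurableSet_Ico.preimage (by fun_prop)
  let w : ℝ → ℝ≥0∞ := (Ico (0 : ℝ) 1).indicator 1
  have hw : Measurable w := measurable_one.indicator measurableSet_Ico
  have m1 : Measurable fun p : E n × ℝ => w (inner ℝ u p.1) * f (p.1 + p.2 • u) :=
    (hw.comp (by fun_prop)).mul (h.comp (by fun_prop))
  have m2 : Measurable fun p : E n × ℝ => w (inner ℝ u p.1 - p.2) * f p.1 :=
    (hw.comp (by fun_prop)).mul (h.comp (by fun_prop))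
  have a := lintegral_lintegral_swap (μ := (volume : Measure (E n))) (ν := (volume : Measure ℝ))
    (f := fun x t => w (inner ℝ u x) * f (x + t • u)) m1.aemeasurable
  have b := lintegral_lintegral_swap (μ := (volume : Measure (E n))) (ν := (volume : Measure ℝ))
    (f := fun x t => w (inner ℝ u x - t) * f x) m2.aemeasurable
  rw [← lintegral_indicator m]
  refine Eq.trans ?_ (b.trans (Eq.trans ?_ (a.symm.trans ?_))) <;> congr 1 <;> funext x
  · rw [lintegral_mul_const _ (show Measurable fun y : ℝ => w (inner ℝ u x - y) from hw.comp (by fun_prop)), lintegral_sub_left_eq_self w (inner ℝ u x)]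
    simp [w]
  · rw [← lintegral_add_right_eq_self (fun y => w (inner ℝ u y - x) * f y) (x • u)]
    congr 1; ext y
    simp [inner_add_right, inner_smul_right, hu]
  · rw [lintegral_const_mul _ (show Measurable fun y : ℝ => f (x + y • u) from h.comp (by fun_prop))]
    by_cases hx : inner ℝ u x ∈ Ico (0 : ℝ) 1
    · rw [indicator_of_mem (by exact hx)]; simp [-mem_Ico, w, hx, T]
    · rw [indicator_of_notMem (by exact hx)]; simp [-mem_Ico, w, hx]

lemma cmp {u : E n} (hu : ‖u‖ = 1) {K : Set (E n)} (hK : IsCompact K) (hc : Convex ℝ K)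
    {F G H F' G' H' : E n → ℝ≥0∞} (hF : Measurable F) (hG : Measurable G) (hH : Measurable H)
    (hF' : Measurable F') (hG' : Measurable G') (hH' : Measurable H')
    (h : ∀ x : E n, ∀ c t : ℝ, inner ℝ x u = 0 →
      F (x + t • u) + G (x + (c + t) • u) + H (x + (c - t) • u) ≤
      F' (x + t • u) + G' (x + (c + t) • u) + H' (x + (c - t) • u)) :
    (∫⁻ x in St u K, F x) + (∫⁻ x in K, G x) + (∫⁻ x in K, H x) ≤
      (∫⁻ x in St u K, F' x) + (∫⁻ x in K, G' x) + (∫⁻ x in K, H' x) := by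
  have mS := (St_compact hu hK hc).measurableSet
  have mK := hK.measurableSet
  simp only [← lintegral_indicator mS, ← lintegral_indicator mK]
  rw [fub hu (hF.indicator mS), fub hu (hF'.indicator mS), fub hu (hG.indicator mK),
    fub hu (hG'.indicator mK), fub hu (hH.indicator mK), fub hu (hH'.indicator mK),
    ← lintegral_add_left (T_meas u (hF.indicator mS)),
    ← lintegral_add_left (T_meas u (hF'.indicator mS)),
    ← lintegral_add_right _ (T_meas u (hH.indicator mK)),
    ← lintegral_add_right _ (T_meas u (hH'.indicator mK))]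
  refine lintegral_mono fun y => ?_
  obtain ⟨x, hxd⟩ : ∃ x, x = y + (-inner ℝ y u) • u := ⟨_, rfl⟩
  have hx : inner ℝ x u = 0 := by rw [hxd]; simp [inner_add_left, inner_smul_left, hu]
  have e : ∀ f, T u f y = T u f x := fun f => by rw [hxd, T_shift]
  simp only [e]
  by_cases hne : ∃ s : ℝ, x + s • u ∈ K
  · obtain ⟨α, β, hab, eq⟩ := fiber hu hK hc x hne
    have hK' : ∀ s : ℝ, x + s • u ∈ K ↔ s ∈ Icc α β := fun s => by rw [← eq]; rfl
    obtain ⟨c, hc'⟩ : ∃ c, c = (α + β) / 2 := ⟨_, rfl⟩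
    obtain ⟨l, hl⟩ : ∃ l, l = (β - α) / 2 := ⟨_, rfl⟩
    have hS : ∀ t : ℝ, x + t • u ∈ St u K ↔ t ∈ Icc (-l) l := fun t => by
      rw [mem_St hu hK hc]
      constructor
      · rintro ⟨x', s, s', hx', hs, hs', e'⟩
        obtain ⟨rfl, rfl⟩ := uniq hu hx hx' e'
        rw [hK'] at hs hs'
        constructor <;> linarith [hs.1, hs.2, hs'.1, hs'.2]
      · rintro ⟨h1, h2⟩
        refine ⟨x, c + t, c - t, hx, (hK' _).2 ⟨by linarith, by linarith⟩,
          (hK' _).2 ⟨by linarith, by linarith⟩, by congr 2; ring⟩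
    have t1 : ∀ f : E n → ℝ≥0∞, T u ((St u K).indicator f) x = ∫⁻ t in Icc (-l) l, f (x + t • u) := by
      intro f
      rw [← lintegral_indicator measurableSet_Icc, T]
      congr 1; funext t
      simp only [indicator, hS]
    have t2 : ∀ f : E n → ℝ≥0∞, T u (K.indicator f) x = ∫⁻ t in Icc (-l) l, f (x + (c + t) • u) := by
      intro f
      rw [← lintegral_indicator measurableSet_Icc, T,
        ← lintegral_add_left_eq_self (fun t : ℝ => K.indicator f (x + t • u)) c]
      congr 1; funext t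
      have : c + t ∈ Icc α β ↔ t ∈ Icc (-l) l := by
        constructor <;> rintro ⟨h1, h2⟩ <;> constructor <;> linarith
      simp only [indicator, hK', this]
    have t3 : ∀ f : E n → ℝ≥0∞, T u (K.indicator f) x = ∫⁻ t in Icc (-l) l, f (x + (c - t) • u) := by
      intro f
      rw [← lintegral_indicator measurableSet_Icc, T,
        ← lintegral_sub_left_eq_self (fun t : ℝ => K.indicator f (x + t • u)) c]
      congr 1; funext t
      have : c - t ∈ Icc α β ↔ t ∈ Icc (-l) l := by
        constructor <;> rintro ⟨h1, h2⟩ <;> constructor <;> linarith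
      simp only [indicator, hK', this]
    rw [t1, t1, t2 G, t2 G', t3 H, t3 H',
      ← lintegral_add_left (show Measurable fun t : ℝ => F (x + t • u) from hF.comp (by fun_prop)),
      ← lintegral_add_left (show Measurable fun t : ℝ => F' (x + t • u) from hF'.comp (by fun_prop)),
      ← lintegral_add_right _ (show Measurable fun t : ℝ => H (x + (c - t) • u) from hH.comp (by fun_prop)),
      ← lintegral_add_right _ (show Measurable fun t : ℝ => H' (x + (c - t) • u) from hH'.comp (by fun_prop))]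
    exact lintegral_mono fun t => h x c t hx
  · have hK' : ∀ s : ℝ, x + s • u ∉ K := fun s hs => hne ⟨s, hs⟩
    have hS : ∀ t : ℝ, x + t • u ∉ St u K := fun t ht => by
      rw [mem_St hu hK hc] at ht
      obtain ⟨x', s, s', hx', hs, hs', e'⟩ := ht
      obtain ⟨rfl, rfl⟩ := uniq hu hx hx' e'
      exact hK' _ hs
    simp [T, hK', hS]

end Pool.Agent.H.MP_2ecbc5_gt
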