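import Pool.Agent.H.MP_2ecbc5_gt.A

set_option autoImplicit false

namespace Pool.Agent.H.MP_2ecbc5_gt

open Set Metric MeasureTheory Filter Topology ENNReal

variable {n : ℕ}

noncomputable def J (f : E n → ℝ) (K : Set (E n)) : ℝ≥0∞ := ∫⁻ x in K, ENNReal.ofReal (f x)

lemma J_fin {f : E n → ℝ} (hf : Continuous f) {K : Set (E n)} (hK : IsCompact K) : J f K ≠ ⊤ := by
  obtain ⟨C, hC⟩ := hK.bddAbove_image hf.continuousOn
  refine ne_top_of_le_ne_top (b := ∫⁻ _ in K, ENNReal.ofReal C) ?_ ?_
  · rw [setLIntegral_const]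
    exact ENNReal.mul_ne_top ofReal_ne_top hK.measure_lt_top.ne
  · exact setLIntegral_mono' hK.measurableSet fun x hx => ofReal_le_ofReal (hC ⟨x, hx, rfl⟩)

noncomputable def I (K : Set (E n)) : ℝ := (J (fun x => ‖x‖ ^ 2) K).toReal
noncomputable def D (L K : Set (E n)) : ℝ := (J (fun x => infDist x L ^ 2) K).toReal

lemma St_vol {u : E n} (hu : ‖u‖ = 1) {K : Set (E n)} (hK : IsCompact K) (hc : Convex ℝ K) :
    volume (St u K) = volume K := by
  have h1 := cmp hu hK hc (F := fun _ => 1) (G := fun _ => 0) (H := fun _ => 0) (F' := fun _ => 0)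
    (G' := fun _ => 1) (H' := fun _ => 0) measurable_const measurable_const measurable_const
    measurable_const measurable_const measurable_const (fun _ _ _ _ => by simp)
  have h2 := cmp hu hK hc (F := fun _ => 0) (G := fun _ => 1) (H := fun _ => 0) (F' := fun _ => 1)
    (G' := fun _ => 0) (H' := fun _ => 0) measurable_const measurable_const measurable_const
    measurable_const measurable_const measurable_const (fun _ _ _ _ => by simp)
  simp at h1 h2
  exact le_antisymm h1 h2

lemma key_step {u : E n} (hu : ‖u‖ = 1) {K : Set (E n)} (hK : IsCompact K) (hc : Convex ℝ K)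
    {L : Set (E n)} (hL : IsCompact L) (hL' : L.Nonempty) :
    ∃ g : E n ≃ₗᵢ[ℝ] E n, I (St u K) + D (g '' L) K ≤ D L (St u K) + I K := by
  let σ : E n ≃ₗᵢ[ℝ] E n := (ℝ ∙ u)ᗮ.reflection
  have hσ : ∀ x : E n, ∀ s : ℝ, inner ℝ x u = 0 → σ (x + s • u) = x + (-s) • u := by
    intro x s hx
    have h1 : σ x = x := Submodule.reflection_mem_subspace_eq_self
      ((Submodule.mem_orthogonal_singleton_iff_inner_left).2 hx)
    have h2 : σ u = -u := Submodule.reflection_orthogonalComplement_singleton_eq_neg u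
    rw [map_add, map_smul, h1, h2]; simp
  have c1 : Continuous fun x : E n => ‖x‖ ^ 2 := by fun_prop
  have c2 : ∀ L : Set (E n), Continuous fun x : E n => infDist x L ^ 2 := fun L =>
    (continuous_infDist_pt L).pow 2
  have m1 : Measurable fun x : E n => ENNReal.ofReal (‖x‖ ^ 2) := c1.measurable.ennreal_ofReal
  have m2 : ∀ L : Set (E n), Measurable fun x : E n => ENNReal.ofReal (infDist x L ^ 2) := fun L =>
    (c2 L).measurable.ennreal_ofReal
  have h := cmp hu hK hc (F := fun x => 2 * ENNReal.ofReal (‖x‖ ^ 2))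
    (G := fun x => ENNReal.ofReal (infDist x L ^ 2))
    (H := fun x => ENNReal.ofReal (infDist x (σ '' L) ^ 2))
    (F' := fun x => 2 * ENNReal.ofReal (infDist x L ^ 2))
    (G' := fun x => ENNReal.ofReal (‖x‖ ^ 2)) (H' := fun x => ENNReal.ofReal (‖x‖ ^ 2))
    (m1.const_mul 2) (m2 L) (m2 _) ((m2 L).const_mul 2) m1 m1 (by
      intro x c t hx
      obtain ⟨y, hy, e⟩ := hL.exists_infDist_eq_dist hL' (x + t • u)
      have a1 : infDist (x + (c + t) • u) L ≤ dist (x + (c + t) • u) y := infDist_le_dist_of_mem hy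
      have a2 : infDist (x + (c - t) • u) (σ '' L) ≤ dist (x + (t - c) • u) y := by
        have := infDist_le_dist_of_mem (x := x + (c - t) • u) (mem_image_of_mem σ hy)
        rw [← σ.dist_map (x + (t - c) • u) y, hσ _ _ hx, neg_sub]
        exact this
      have b1 := pow_le_pow_left₀ infDist_nonneg a1 2
      have b2 := pow_le_pow_left₀ infDist_nonneg a2 2
      have p : dist (x + (c + t) • u) y ^ 2 + dist (x + (t - c) • u) y ^ 2 =
          2 * dist (x + t • u) y ^ 2 + 2 * c ^ 2 := by
        have e1 : x + (c + t) • u - y = (x + t • u - y) + c • u := by rw [add_smul]; abel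
        have e2 : x + (t - c) • u - y = (x + t • u - y) - c • u := by rw [sub_smul]; abel
        rw [dist_eq_norm, dist_eq_norm, dist_eq_norm, e1, e2]
        generalize x + t • u - y = w
        rw [norm_add_sq_real, norm_sub_sq_real, norm_smul, hu]
        simp; ring
      have two : ∀ a : ℝ, 2 * ENNReal.ofReal a = ENNReal.ofReal (2 * a) := fun a => by
        rw [ENNReal.ofReal_mul (by norm_num)]; simp
      simp only [two]
      rw [← ofReal_add (by positivity) (by positivity), ← ofReal_add (by positivity) (by positivity),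
        ← ofReal_add (by positivity) (by positivity), ← ofReal_add (by positivity) (by positivity)]
      apply ofReal_le_ofReal
      rw [e, py hu hx, py hu hx, py hu hx]
      nlinarith)
  rw [lintegral_const_mul _ m1, lintegral_const_mul _ (m2 L)] at h
  have hS := St_compact hu hK hc
  change 2 * J (fun x => ‖x‖ ^ 2) (St u K) + J (fun x => infDist x L ^ 2) K +
    J (fun x => infDist x (σ '' L) ^ 2) K ≤ 2 * J (fun x => infDist x L ^ 2) (St u K) +
    J (fun x => ‖x‖ ^ 2) K + J (fun x => ‖x‖ ^ 2) K at h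
  have f1 := J_fin c1 hS
  have f2 := J_fin c1 hK
  have f3 := J_fin (c2 L) hS
  have f4 := J_fin (c2 L) hK
  have f5 := J_fin (c2 (σ '' L)) hK
  have h' := ENNReal.toReal_mono (by finiteness) h
  rw [toReal_add (by finiteness) f5, toReal_add (by finiteness) f4, toReal_add (by finiteness) f2,
    toReal_add (by finiteness) f2, toReal_mul, toReal_mul] at h'
  simp only [toReal_ofNat] at h'
  change 2 * I (St u K) + D L K + D (σ '' L) K ≤ 2 * D L (St u K) + I K + I K at h'
  rcases le_total (D L K) (D (σ '' L) K) with hh | hh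
  · refine ⟨LinearIsometryEquiv.refl ℝ _, ?_⟩
    have : (LinearIsometryEquiv.refl ℝ (E n)) '' L = L := by simp
    rw [this]; linarith
  · exact ⟨σ, by linarith⟩

lemma D_self {K : Set (E n)} (hK : IsCompact K) : D K K = 0 := by
  have : J (fun x => infDist x K ^ 2) K = 0 := by
    rw [J, setLIntegral_congr_fun hK.measurableSet (g := fun _ => 0)]
    · simp
    · intro x hx; simp [infDist_zero_of_mem hx]
  rw [D, this]; rfl

lemma small_ball {A : Set (E n)} (hc : Convex ℝ A) {R r t : ℝ} {c a : E n} (hR : A ⊆ closedBall 0 R)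
    (hr : closedBall c r ⊆ A) (ha : a ∈ A) (t0 : 0 < t) (t1 : t ≤ 1) :
    ∃ c', closedBall c' (t * r) ⊆ A ∩ closedBall a (2 * R * t) := by
  refine ⟨a + t • (c - a), fun z hz => ?_⟩
  obtain ⟨w, hw⟩ : ∃ w, w = c + t⁻¹ • (z - (a + t • (c - a))) := ⟨_, rfl⟩
  have hw1 : w ∈ A := hr (by
    rw [hw, mem_closedBall, dist_self_add_left, norm_smul, Real.norm_of_nonneg (by positivity),
      ← dist_eq_norm, inv_mul_le_iff₀ t0]
    exact hz)
  have e : z = a + t • (w - a) := by
    rw [hw, add_sub_right_comm, smul_add, smul_smul, mul_inv_cancel₀ t0.ne', one_smul]; abel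
  refine ⟨e ▸ hc.add_smul_sub_mem ha hw1 ⟨t0.le, t1⟩, ?_⟩
  rw [e, mem_closedBall, dist_self_add_left, norm_smul, Real.norm_of_nonneg t0.le]
  have h1 := mem_closedBall_zero_iff.1 (hR ha)
  have h2 := mem_closedBall_zero_iff.1 (hR hw1)
  have := norm_sub_le w a
  nlinarith

lemma close {R r : ℝ} (r0 : 0 < r) (R0 : 0 < R) {V : ℝ≥0∞} (hV : V ≠ ⊤) {ε : ℝ} (e0 : 0 < ε) :
    ∃ η : ℝ, 0 < η ∧ ∀ A B : Set (E n), IsCompact A → IsCompact B → Convex ℝ A → Convex ℝ B →
      A ⊆ closedBall 0 R → B ⊆ closedBall 0 R → (∃ c, closedBall c r ⊆ A) →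
      (∃ c, closedBall c r ⊆ B) → volume A = V → volume B = V → D B A ≤ η →
      hausdorffDist A B ≤ ε := by
  obtain ⟨t, t0, t1, t2⟩ : ∃ t : ℝ, 0 < t ∧ t ≤ 1 ∧ 2 * R * t ≤ ε := by
    refine ⟨min 1 (ε / (2 * R)), by positivity, min_le_left _ _, ?_⟩
    have := min_le_right 1 (ε / (2 * R))
    rw [le_div_iff₀ (by positivity)] at this; linarith
  have pos : 0 < volume (closedBall (0 : E n) (t * r)) := measure_closedBall_pos _ _ (by positivity)
  have lt : V < V + volume (closedBall (0 : E n) (t * r)) := lt_add_right hV pos.ne'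
  have ct : Tendsto (fun δ : ℝ => ENNReal.ofReal |(1 + δ / r) ^ Module.finrank ℝ (E n)| * V)
      (𝓝 0) (𝓝 V) := by
    have : Continuous (fun δ : ℝ => ENNReal.ofReal |(1 + δ / r) ^ Module.finrank ℝ (E n)| * V) :=
      (ENNReal.continuous_mul_const hV).comp (ENNReal.continuous_ofReal.comp (by fun_prop))
    simpa using this.tendsto 0
  obtain ⟨δ, ⟨d1, d2⟩, d0⟩ := ((((ct.eventually_lt_const lt).and (gt_mem_nhds e0)).filter_mono
    (nhdsWithin_le_nhds (s := Ioi 0))).and self_mem_nhdsWithin).exists
  have d0 : 0 < δ := d0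
  obtain ⟨s, s0, s1, s2⟩ : ∃ t : ℝ, 0 < t ∧ t ≤ 1 ∧ 2 * R * t ≤ δ / 2 := by
    refine ⟨min 1 (δ / 2 / (2 * R)), by positivity, min_le_left _ _, ?_⟩
    have := min_le_right 1 (δ / 2 / (2 * R))
    rw [le_div_iff₀ (by positivity)] at this; linarith
  have pos' : 0 < volume (closedBall (0 : E n) (s * r)) := measure_closedBall_pos _ _ (by positivity)
  have fin' : volume (closedBall (0 : E n) (s * r)) ≠ ⊤ := measure_closedBall_lt_top.ne
  have pr : 0 < (volume (closedBall (0 : E n) (s * r))).toReal := toReal_pos pos'.ne' fin'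
  refine ⟨(δ / 2) ^ 2 * (volume (closedBall (0 : E n) (s * r))).toReal / 2, by positivity, ?_⟩
  rintro A B hA hB cA cB RA RB ⟨c, hc⟩ ⟨c', hc'⟩ vA vB hD
  have nB : B.Nonempty := ⟨c', hc' (mem_closedBall_self r0.le)⟩
  have nA : A.Nonempty := ⟨c, hc (mem_closedBall_self r0.le)⟩
  have h1 : ∀ a ∈ A, infDist a B ≤ δ := by
    intro a ha
    by_contra! H
    obtain ⟨b, hb⟩ := small_ball cA RA hc ha s0 s1
    have : ENNReal.ofReal ((δ / 2) ^ 2) * volume (closedBall b (s * r)) ≤
        J (fun x => infDist x B ^ 2) A := by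
      rw [← setLIntegral_const]
      refine (setLIntegral_mono' measurableSet_closedBall fun x hx => ?_).trans
        (lintegral_mono_set fun x hx => (hb hx).1)
      apply ofReal_le_ofReal
      apply pow_le_pow_left₀ (by positivity)
      have q1 := infDist_le_infDist_add_dist (x := a) (y := x) (s := B)
      have q2 : dist x a ≤ 2 * R * s := (hb hx).2
      rw [dist_comm] at q2
      linarith
    have h2 := ENNReal.toReal_mono (J_fin ((continuous_infDist_pt B).pow 2) hA) this
    rw [toReal_mul, toReal_ofReal (by positivity), Measure.addHaar_closedBall_center] at h2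
    change _ ≤ D B A at h2
    have : 0 < (δ / 2) ^ 2 * (volume (closedBall (0 : E n) (s * r))).toReal := by positivity
    linarith
  refine hausdorffDist_le_of_infDist e0.le (fun a ha => (h1 a ha).trans d2.le) fun b hb => ?_
  by_contra! H
  obtain ⟨b', hb'⟩ := small_ball cB RB hc' hb t0 t1
  have sub1 : A ⊆ AffineMap.homothety c' (1 + δ / r) '' B := by
    intro x hx
    obtain ⟨y, hy, e⟩ := hB.exists_infDist_eq_dist nB x
    have hxy : dist x y ≤ δ := e ▸ h1 x hx
    have m : c' + (r / δ) • (x - y) ∈ B := hc' (by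
      rw [mem_closedBall, dist_self_add_left, norm_smul, Real.norm_of_nonneg (by positivity),
        ← dist_eq_norm, div_mul_eq_mul_div, div_le_iff₀ d0]
      exact mul_le_mul_of_nonneg_left hxy r0.le)
    refine ⟨_, cB hy m (a := r / (r + δ)) (b := δ / (r + δ)) (by positivity) (by positivity)
      (by field_simp), ?_⟩
    rw [AffineMap.homothety_apply]
    ext i
    simp
    field_simp
    ring
  have sub2 : B ⊆ AffineMap.homothety c' (1 + δ / r) '' B := by
    intro x hx
    refine ⟨_, cB hx (hc' (mem_closedBall_self r0.le)) (a := r / (r + δ)) (b := δ / (r + δ))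
      (by positivity) (by positivity) (by field_simp), ?_⟩
    rw [AffineMap.homothety_apply]
    ext i
    simp
    field_simp
    ring
  have dj : Disjoint A (closedBall b' (t * r)) := disjoint_left.2 fun y hy hy' => by
    have q1 := infDist_le_dist_of_mem (x := b) hy
    have q2 : dist y b ≤ 2 * R * t := (hb' hy').2
    rw [dist_comm] at q2
    linarith
  have := measure_mono (μ := volume) (union_subset sub1 (fun y hy => sub2 (hb' hy).1))
  rw [measure_union dj measurableSet_closedBall, vA, Measure.addHaar_image_homothety, vB,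
    Measure.addHaar_closedBall_center] at this
  exact d1.not_ge this

end Pool.Agent.H.MP_2ecbc5_gt
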